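import Pool.Agent.Helper70.DK.Defs

set_option autoImplicit false

namespace Pool.Agent.Helper70.DK

open Finset

theorem inc_floor (x : ℝ) (n : ℕ) (hn : 0 < n) : ⌊x / (n : ℝ)⌋ = ⌊x⌋ / (n : ℤ) := by
  have hn' : (0 : ℤ) < n := by exact_mod_cast hn
  have hnr : (0 : ℝ) < n := by exact_mod_cast hn
  rw [Int.floor_eq_iff]
  have e1 : (⌊x⌋ / (n : ℤ)) * n ≤ ⌊x⌋ := Int.ediv_mul_le _ hn'.ne'
  have e2 : ⌊x⌋ < (⌊x⌋ / (n : ℤ) + 1) * n := Int.lt_ediv_add_one_mul_self _ hn'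
  have e3 : ⌊x⌋ + 1 ≤ (⌊x⌋ / (n : ℤ) + 1) * n := e2
  constructor
  · rw [le_div_iff₀ hnr]
    have : (((⌊x⌋ / (n : ℤ)) * n : ℤ) : ℝ) ≤ ((⌊x⌋ : ℤ) : ℝ) := by exact_mod_cast e1
    push_cast at this
    exact this.trans (Int.floor_le x)
  · rw [div_lt_iff₀ hnr]
    have : (((⌊x⌋ + 1 : ℤ)) : ℝ) ≤ (((⌊x⌋ / (n : ℤ) + 1) * n : ℤ) : ℝ) := by exact_mod_cast e3
    push_cast at this
    exact (Int.lt_floor_add_one x).trans_le this

theorem inc_cl {k : ℕ} (B s : ℕ) (hB : 0 < B) (w : Fin k → ℝ) :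
    cl B s (fl w) = fl (fun i => w i / (B : ℝ) ^ s) := by
  funext i
  show ⌊w i⌋ / (B : ℤ) ^ s = ⌊w i / (B : ℝ) ^ s⌋
  have := inc_floor (w i) (B ^ s) (pow_pos hB s)
  push_cast at this
  exact this.symm

/-- vectors of floors of `a + r` with `|r| ≤ X` -/
theorem inc_box {k : ℕ} (a : Fin k → ℝ) (X : ℝ) (_hX : 0 ≤ X) :
    ∃ F : Finset (Fin k → ℤ), F.card ≤ (⌈2 * X⌉₊ + 2) ^ k ∧
      ∀ r : Fin k → ℝ, (∀ i, |r i| ≤ X) → fl (fun i => a i + r i) ∈ F := by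
  refine ⟨Fintype.piFinset (fun i => Finset.Icc ⌊a i - X⌋ (⌊a i - X⌋ + (⌈2 * X⌉₊ + 1 : ℕ))), ?_, ?_⟩
  · rw [Fintype.card_piFinset]
    have : ∀ i : Fin k, (Finset.Icc ⌊a i - X⌋ (⌊a i - X⌋ + (⌈2 * X⌉₊ + 1 : ℕ))).card = ⌈2 * X⌉₊ + 2 := by
      intro i
      rw [Int.card_Icc]
      push_cast
      omega
    rw [Finset.prod_congr rfl (fun i _ => this i)]
    simp
  · intro r hr
    rw [Fintype.mem_piFinset]
    intro i
    rw [Finset.mem_Icc]
    have h1 := abs_le.mp (hr i)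
    constructor
    · show ⌊a i - X⌋ ≤ ⌊a i + r i⌋
      apply Int.floor_le_floor
      linarith [h1.1]
    · show ⌊a i + r i⌋ ≤ ⌊a i - X⌋ + (⌈2 * X⌉₊ + 1 : ℕ)
      have h2 : a i - X < ⌊a i - X⌋ + 1 := Int.lt_floor_add_one _
      have h3 : 2 * X ≤ (⌈2 * X⌉₊ : ℝ) := Nat.le_ceil _
      have h4 : ⌊a i + r i⌋ < ⌊a i - X⌋ + (⌈2 * X⌉₊ + 1 : ℕ) + 1 := by
        rw [Int.floor_lt]
        push_cast
        linarith [h1.2]
      exact Int.lt_add_one_iff.mp h4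

theorem st_INC (h1 : ST_E1) (h2 : ST_E2) (h5 : ST_E5) (hF : ST_FRM) (hPB : ST_PB) : ST_INC := by
  classical
  intro m B R hm hB hR
  obtain ⟨dp, sm, nn, sa⟩ := h1
  obtain ⟨c1, c2, c3⟩ := h2
  obtain ⟨p1, p2, p3, p4, p5⟩ := h5
  obtain ⟨f1, f2, f3, f4, f5, f6, f7⟩ := hF
  have hB0 : 0 < B := by omega
  have hBr : (1 : ℝ) ≤ B := by exact_mod_cast hB0
  have hBpos : (0 : ℝ) < B := by linarith
  set X : ℝ := 2 * m * (R + B) with hX
  have hX0 : 0 ≤ X := by positivity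
  set K1 : ℕ := ⌈2 * X⌉₊ + 2 with hK1
  have hK1pos : (1 : ℝ) ≤ (K1 : ℝ) := by
    have : 1 ≤ K1 := by omega
    exact_mod_cast this
  have hlogK : 0 ≤ Real.log K1 := Real.log_nonneg hK1pos
  have hlog2 : 0 ≤ Real.log ((⌈2 * (1 : ℝ)⌉₊ + 2 : ℕ) : ℝ) := Real.log_nonneg (by norm_cast)
  refine ⟨m * Real.log ((⌈2 * (1 : ℝ)⌉₊ + 2 : ℕ) : ℝ) + m * Real.log K1, by positivity, ?_⟩
  intro ι _ _ σ t k π i n q lam ht0 ht1 hOk hπ hn
  obtain ⟨b1, b2, b3, b4, b5⟩ := hPB m B R t ι σ hB hR ht0 ht1 hOk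
  obtain ⟨n1, rfl⟩ : ∃ n1, n = n1 + lam + q := ⟨n - (q + lam), by omega⟩
  have hn1 : n1 + lam + q - (q + lam) = n1 := by omega
  rw [hn1]
  have hkm : k ≤ m := f7 k m π hπ
  have hkmr : (k : ℝ) ≤ m := by exact_mod_cast hkm
  -- the decomposition
  let e : ((Fin n1 → ι) × (Fin q → ι)) × (Fin lam → ι) → (Fin (n1 + lam + q) → ι) :=
    fun x => Fin.append (Fin.append x.1.1 x.2) x.1.2
  let wH : (Fin n1 → ι) → Fin k → ℝ := fun u => π.mulVec (σ.P B t i n1 u)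
  let wJ : (Fin lam → ι) → Fin k → ℝ := fun u => π.mulVec (σ.P B t (i + n1) lam u)
  let wL : (Fin q → ι) → Fin k → ℝ := fun u => π.mulVec (σ.P B t (i + (n1 + lam)) q u)
  have hdec : ∀ x, π.mulVec (σ.P B t i (n1 + lam + q) (e x)) =
      fun j => (B : ℝ) ^ (q + lam) * wH x.1.1 j + (B : ℝ) ^ q * wJ x.2 j + wL x.1.2 j := by
    intro x
    have hv : σ.P B t i (n1 + lam + q) (e x) = ((B : ℝ) ^ (q + lam)) • σ.P B t i n1 x.1.1 +
        ((B : ℝ) ^ q) • σ.P B t (i + n1) lam x.2 + σ.P B t (i + (n1 + lam)) q x.1.2 := by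
      funext c
      show σ.P B t i (n1 + lam + q) (Fin.append (Fin.append x.1.1 x.2) x.1.2) c = _
      rw [b1, b1]
      simp only [Pi.add_apply, Pi.smul_apply, smul_eq_mul]
      ring
    rw [hv, Matrix.mulVec_add, Matrix.mulVec_add, Matrix.mulVec_smul, Matrix.mulVec_smul]
    funext j
    simp only [Pi.add_apply, Pi.smul_apply, smul_eq_mul]
    rfl
  have hbij : Set.BijOn e (↑((univ : Finset ((Fin n1 → ι) × (Fin q → ι))) ×ˢ
      (univ : Finset (Fin lam → ι)))) (↑(univ : Finset (Fin (n1 + lam + q) → ι))) := by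
    refine ⟨fun x _ => by simp, ?_, ?_⟩
    · intro x _ y _ hxy
      have hxy' : Fin.append (Fin.append x.1.1 x.2) x.1.2 = Fin.append (Fin.append y.1.1 y.2) y.1.2 := hxy
      have g1 : ∀ j : Fin (n1 + lam), Fin.append x.1.1 x.2 j = Fin.append y.1.1 y.2 j := by
        intro j
        have := congrFun hxy' (Fin.castAdd q j)
        rwa [Fin.append_left, Fin.append_left] at this
      have g2 : x.1.2 = y.1.2 := by
        funext j
        have := congrFun hxy' (Fin.natAdd (n1 + lam) j)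
        rwa [Fin.append_right, Fin.append_right] at this
      have g3 : x.1.1 = y.1.1 := by
        funext j
        have := g1 (Fin.castAdd lam j)
        rwa [Fin.append_left, Fin.append_left] at this
      have g4 : x.2 = y.2 := by
        funext j
        have := g1 (Fin.natAdd n1 j)
        rwa [Fin.append_right, Fin.append_right] at this
      exact Prod.ext (Prod.ext g3 g2) g4
    · intro v _
      refine ⟨((fun j => v (Fin.castAdd q (Fin.castAdd lam j)), fun j => v (Fin.natAdd (n1 + lam) j)),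
        fun j => v (Fin.castAdd q (Fin.natAdd n1 j))), by simp, ?_⟩
      funext j
      show Fin.append (Fin.append _ _) _ j = v j
      refine Fin.addCases (fun j => ?_) (fun j => ?_) j
      · rw [Fin.append_left]
        refine Fin.addCases (fun j => ?_) (fun j => ?_) j
        · rw [Fin.append_left]
        · rw [Fin.append_right]
      · rw [Fin.append_right]
  set S1 : Finset ((Fin n1 → ι) × (Fin q → ι)) := univ with hS1
  set S2 : Finset (Fin lam → ι) := univ with hS2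
  have hS1n : S1.Nonempty := univ_nonempty
  have hS2n : S2.Nonempty := univ_nonempty
  let F : ((Fin n1 → ι) × (Fin q → ι)) → (Fin lam → ι) → (Fin k → ℤ) := fun x y =>
    fl (fun j => ((B : ℝ) ^ lam * wH x.1 j + wL x.2 j / (B : ℝ) ^ q) + wJ y j)
  let G : ((Fin n1 → ι) × (Fin q → ι)) → (Fin lam → ι) → (Fin k → ℤ) := fun x y =>
    fl (fun j => wH x.1 j + (wJ y j / (B : ℝ) ^ lam + wL x.2 j / (B : ℝ) ^ (q + lam)))
  have hBq : ((B : ℝ) ^ q) ≠ 0 := (pow_pos hBpos q).ne'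
  have hBl : ((B : ℝ) ^ lam) ≠ 0 := (pow_pos hBpos lam).ne'
  have hFe : ent (univ : Finset (Fin (n1 + lam + q) → ι))
      (fun v => cl B q (fl (π.mulVec (σ.P B t i (n1 + lam + q) v)))) =
      ent (S1 ×ˢ S2) (fun x => F x.1 x.2) := by
    rw [← p5 _ _ _ (S1 ×ˢ S2) _ e _ hbij]
    congr 1
    funext x
    rw [inc_cl B q hB0, hdec]
    show fl _ = fl _
    congr 1
    funext j
    show ((B : ℝ) ^ (q + lam) * wH x.1.1 j + (B : ℝ) ^ q * wJ x.2 j + wL x.1.2 j) / (B : ℝ) ^ q =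
      ((B : ℝ) ^ lam * wH x.1.1 j + wL x.1.2 j / (B : ℝ) ^ q) + wJ x.2 j
    rw [pow_add]
    field_simp
    ring
  have hGe : ent (univ : Finset (Fin (n1 + lam + q) → ι))
      (fun v => cl B (q + lam) (fl (π.mulVec (σ.P B t i (n1 + lam + q) v)))) =
      ent (S1 ×ˢ S2) (fun x => G x.1 x.2) := by
    rw [← p5 _ _ _ (S1 ×ˢ S2) _ e _ hbij]
    congr 1
    funext x
    rw [inc_cl B (q + lam) hB0, hdec]
    show fl _ = fl _
    congr 1
    funext j
    show ((B : ℝ) ^ (q + lam) * wH x.1.1 j + (B : ℝ) ^ q * wJ x.2 j + wL x.1.2 j) / (B : ℝ) ^ (q + lam) =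
      wH x.1.1 j + (wJ x.2 j / (B : ℝ) ^ lam + wL x.1.2 j / (B : ℝ) ^ (q + lam))
    rw [pow_add]
    field_simp
    ring
  -- `G` is a function of `F`
  have hGF : ∀ x y, G x y = cl B lam (F x y) := by
    intro x y
    show fl _ = cl B lam (fl _)
    rw [inc_cl B lam hB0]
    congr 1
    funext j
    rw [pow_add]
    field_simp
    ring
  rw [hFe, hGe]
  -- reduction to conditional entropies
  have key : ent (S1 ×ˢ S2) (fun x => (F x.1 x.2, x.1)) + ent (S1 ×ˢ S2) (fun x => G x.1 x.2) ≤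
      ent (S1 ×ˢ S2) (fun x => F x.1 x.2) + ent (S1 ×ˢ S2) (fun x => (G x.1 x.2, x.1)) := by
    have k1 := sm _ _ _ _ (S1 ×ˢ S2) (fun x => F x.1 x.2) (fun x => x.1) (fun x => G x.1 x.2)
    have k2 : ent (S1 ×ˢ S2) (fun x => (F x.1 x.2, G x.1 x.2)) ≤ ent (S1 ×ˢ S2) (fun x => F x.1 x.2) := by
      apply dp
      intro x _ y _ hxy
      have : F x.1 x.2 = F y.1 y.2 := hxy
      show (F x.1 x.2, G x.1 x.2) = (F y.1 y.2, G y.1 y.2)
      rw [hGF, hGF, this]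
    have k3 : ent (S1 ×ˢ S2) (fun x => (F x.1 x.2, x.1)) ≤
        ent (S1 ×ˢ S2) (fun x => (F x.1 x.2, x.1, G x.1 x.2)) := by
      apply dp
      intro x _ y _ hxy
      have h1 : F x.1 x.2 = F y.1 y.2 := congrArg Prod.fst hxy
      have h2 : x.1 = y.1 := congrArg (fun z => z.2.1) hxy
      show (F x.1 x.2, x.1) = (F y.1 y.2, y.1)
      rw [h1, h2]
    have k4 : ent (S1 ×ˢ S2) (fun x => (x.1, G x.1 x.2)) ≤ ent (S1 ×ˢ S2) (fun x => (G x.1 x.2, x.1)) := by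
      apply dp
      intro x _ y _ hxy
      have h1 : G x.1 x.2 = G y.1 y.2 := congrArg Prod.fst hxy
      have h2 : x.1 = y.1 := congrArg Prod.snd hxy
      show (x.1, G x.1 x.2) = (y.1, G y.1 y.2)
      rw [h1, h2]
    linarith
  -- the upper bound for `G`
  have hGup : cent (S1 ×ˢ S2) (fun x => G x.1 x.2) (fun x => x.1) ≤ m * Real.log K1 := by
    have h := c1 _ _ _ (S1 ×ˢ S2) (fun x => G x.1 x.2) (fun x => x.1) (K1 ^ k) (by
      intro c
      obtain ⟨FF, hFF, hFF2⟩ := inc_box (wH c.1) X hX0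
      refine ⟨FF, hFF, ?_⟩
      intro x _ hx
      have hx' : x.1 = c := hx
      show G x.1 x.2 ∈ FF
      rw [hx']
      apply hFF2
      intro j
      have g1 : |wJ x.2 j| ≤ m * ((R + B) * (B : ℝ) ^ lam) :=
        f3 k m π hπ _ _ (fun c => b2 (i + n1) lam x.2 c) j
      have g2 : |wL c.2 j| ≤ m * ((R + B) * (B : ℝ) ^ q) :=
        f3 k m π hπ _ _ (fun c' => b2 (i + (n1 + lam)) q c.2 c') j
      have g3 : |wJ x.2 j / (B : ℝ) ^ lam| ≤ m * (R + B) := by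
        rw [abs_div, abs_of_pos (pow_pos hBpos lam), div_le_iff₀ (pow_pos hBpos lam)]
        calc |wJ x.2 j| ≤ m * ((R + B) * (B : ℝ) ^ lam) := g1
          _ = m * (R + B) * (B : ℝ) ^ lam := by ring
      have g4 : |wL c.2 j / (B : ℝ) ^ (q + lam)| ≤ m * (R + B) := by
        rw [abs_div, abs_of_pos (pow_pos hBpos (q + lam)), div_le_iff₀ (pow_pos hBpos (q + lam))]
        have g5 : (B : ℝ) ^ q ≤ (B : ℝ) ^ (q + lam) := pow_le_pow_right₀ hBr (by omega)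
        calc |wL c.2 j| ≤ m * ((R + B) * (B : ℝ) ^ q) := g2
          _ = m * (R + B) * (B : ℝ) ^ q := by ring
          _ ≤ m * (R + B) * (B : ℝ) ^ (q + lam) := by
              apply mul_le_mul_of_nonneg_left g5
              positivity
      calc |wJ x.2 j / (B : ℝ) ^ lam + wL c.2 j / (B : ℝ) ^ (q + lam)|
          ≤ |wJ x.2 j / (B : ℝ) ^ lam| + |wL c.2 j / (B : ℝ) ^ (q + lam)| := abs_add_le _ _
        _ ≤ X := by rw [hX]; linarith)
    rw [Nat.cast_pow, Real.log_pow] at h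
    exact h.trans (mul_le_mul_of_nonneg_right hkmr hlogK)
  -- the lower bound for `F`
  have hFlow : σ.hh B t π (i + n1) lam - m * Real.log ((⌈2 * (1 : ℝ)⌉₊ + 2 : ℕ) : ℝ) ≤
      cent (S1 ×ˢ S2) (fun x => F x.1 x.2) (fun x => x.1) := by
    rw [p4 _ _ _ S1 S2 F hS1n hS2n]
    have hc : (0 : ℝ) < (S1.card : ℝ) := by exact_mod_cast hS1n.card_pos
    rw [le_div_iff₀ hc]
    have hsum : ∑ x ∈ S1, (σ.hh B t π (i + n1) lam - m * Real.log ((⌈2 * (1 : ℝ)⌉₊ + 2 : ℕ) : ℝ)) ≤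
        ∑ x ∈ S1, ent S2 (F x) := by
      apply Finset.sum_le_sum
      intro x _
      have hx1 := c1 _ _ _ S2 (fun u => fl (wJ u)) (F x) ((⌈2 * (1 : ℝ)⌉₊ + 2) ^ k) (by
        intro c
        obtain ⟨FF, hFF, hFF2⟩ := inc_box (fun j => (c j : ℝ) -
          ((B : ℝ) ^ lam * wH x.1 j + wL x.2 j / (B : ℝ) ^ q)) 1 zero_le_one
        refine ⟨FF, hFF, ?_⟩
        intro y _ hy
        have hy' : ∀ j, ⌊((B : ℝ) ^ lam * wH x.1 j + wL x.2 j / (B : ℝ) ^ q) + wJ y j⌋ = c j :=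
          fun j => congrFun hy j
        have hz : fl (wJ y) = fl (fun j => ((c j : ℝ) -
          ((B : ℝ) ^ lam * wH x.1 j + wL x.2 j / (B : ℝ) ^ q)) +
          (wJ y j - ((c j : ℝ) - ((B : ℝ) ^ lam * wH x.1 j + wL x.2 j / (B : ℝ) ^ q)))) := by
          congr 1
          funext j
          ring
        show fl (wJ y) ∈ FF
        rw [hz]
        apply hFF2
        intro j
        have e1 := Int.floor_le (((B : ℝ) ^ lam * wH x.1 j + wL x.2 j / (B : ℝ) ^ q) + wJ y j)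
        have e2 := Int.lt_floor_add_one (((B : ℝ) ^ lam * wH x.1 j + wL x.2 j / (B : ℝ) ^ q) + wJ y j)
        rw [hy' j] at e1 e2
        rw [abs_le]
        constructor <;> linarith)
      rw [Nat.cast_pow, Real.log_pow] at hx1
      have hx2 : ent S2 (fun u => fl (wJ u)) ≤ ent S2 (fun u => (fl (wJ u), F x u)) := by
        apply dp
        intro a _ b _ hab
        exact congrArg Prod.fst hab
      have hx3 : cent S2 (fun u => fl (wJ u)) (F x) =
        ent S2 (fun u => (fl (wJ u), F x u)) - ent S2 (F x) := rfl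
      have hx4 : σ.hh B t π (i + n1) lam = ent S2 (fun u => fl (wJ u)) := rfl
      have hx5 : (k : ℝ) * Real.log ((⌈2 * (1 : ℝ)⌉₊ + 2 : ℕ) : ℝ) ≤
        m * Real.log ((⌈2 * (1 : ℝ)⌉₊ + 2 : ℕ) : ℝ) := mul_le_mul_of_nonneg_right hkmr hlog2
      rw [hx4]
      linarith
    rw [Finset.sum_const, nsmul_eq_mul] at hsum
    linarith
  have d1 : cent (S1 ×ˢ S2) (fun x => G x.1 x.2) (fun x => x.1) =
    ent (S1 ×ˢ S2) (fun x => (G x.1 x.2, x.1)) - ent (S1 ×ˢ S2) (fun x => x.1) := rfl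
  have d2 : cent (S1 ×ˢ S2) (fun x => F x.1 x.2) (fun x => x.1) =
    ent (S1 ×ˢ S2) (fun x => (F x.1 x.2, x.1)) - ent (S1 ×ˢ S2) (fun x => x.1) := rfl
  linarith

end Pool.Agent.Helper70.DK
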